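import Mathlib

set_option autoImplicit false

/-!
# Krull dimension of images of polynomial maps

* `ringKrullDim_eq_of_isIntegral`: integral injective extensions preserve the Krull dimension.
* `ringKrullDim_eq_of_isTranscendenceBasis`: the Krull dimension of a finitely generated domain
  over a field is its transcendence degree.
* `algebraicIndependent_of_jacobian`: Jacobian criterion at a point.
-/

namespace Pool.Agent.AlgDim

open MvPolynomial

theorem ringKrullDim_eq_of_isIntegral (R S : Type*) [CommRing R] [CommRing S] [Algebra R S]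
    [Algebra.IsIntegral R S] [FaithfulSMul R S] : ringKrullDim S = ringKrullDim R := by
  apply le_antisymm
  · apply Order.krullDim_le_of_strictMono (PrimeSpectrum.comap (algebraMap R S))
    intro p q hpq
    exact Ideal.IsIntegral.comap_lt_comap hpq
  · have : Algebra.HasGoingUp R S := inferInstance
    rw [ringKrullDim, Order.krullDim]
    refine iSup_le fun l => ?_
    obtain ⟨P, hP, hPl⟩ := Ideal.exists_ideal_over_prime_of_isIntegral l.head.asIdeal
      (⊥ : Ideal S) (by
        rw [← RingHom.ker_eq_comap_bot,
          (RingHom.injective_iff_ker_eq_bot _).1 (FaithfulSMul.algebraMap_injective R S)]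
        exact bot_le)
    have hP1 : P.IsPrime := hPl.1
    have lo : P.LiesOver (RelSeries.head l).asIdeal := ⟨hPl.2.symm⟩
    obtain ⟨L, hL, -⟩ := Ideal.exists_ltSeries_of_hasGoingUp l P
    rw [← hL]
    exact le_iSup (fun p : LTSeries (PrimeSpectrum S) => (p.length : WithBot ℕ∞)) L

theorem ringKrullDim_eq_of_isTranscendenceBasis (k : Type*) {R : Type*} [Field k] [CommRing R]
    [IsDomain R] [Algebra k R] [Algebra.FiniteType k R] {ι : Type*} [Fintype ι] {x : ι → R}
    (hx : IsTranscendenceBasis k x) : ringKrullDim R = Fintype.card ι := by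
  obtain ⟨s, g, hg, hint⟩ := exists_integral_inj_algHom_of_fg k R
  let _ : Algebra (MvPolynomial (Fin s) k) R := g.toRingHom.toAlgebra
  have hsc : IsScalarTower k (MvPolynomial (Fin s) k) R := IsScalarTower.of_algHom g
  have hI : Algebra.IsIntegral (MvPolynomial (Fin s) k) R := ⟨hint⟩
  have hF : FaithfulSMul (MvPolynomial (Fin s) k) R :=
    (faithfulSMul_iff_algebraMap_injective _ _).2 hg
  have hdim : ringKrullDim R = s := by
    rw [ringKrullDim_eq_of_isIntegral (MvPolynomial (Fin s) k) R,
      MvPolynomial.ringKrullDim_of_isNoetherianRing, ringKrullDim_eq_zero_of_field]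
    simp
  have hX : IsTranscendenceBasis k (fun i : Fin s => algebraMap (MvPolynomial (Fin s) k) R (X i)) := by
    rw [← Function.comp_def]
    exact (IsTranscendenceBasis.mvPolynomial (Fin s) k).algebraMap_comp
  have hcard := hX.lift_cardinalMk_eq hx
  have : s = Fintype.card ι := by
    simpa using hcard
  rw [hdim, this]

/-- The Krull dimension of the coordinate ring of the closure of the image of a polynomial map,
when the image has algebraically independent coordinates of the right number. -/
theorem ringKrullDim_quotient_ker {k : Type} [Field k] {σ τ : Type} [Finite σ] [Fintype τ]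
    (Φ : MvPolynomial σ k →ₐ[k] MvPolynomial τ k) (h : τ → MvPolynomial σ k)
    (hind : AlgebraicIndependent k (fun j => Φ (h j))) :
    ringKrullDim (MvPolynomial σ k ⧸ RingHom.ker Φ) = Fintype.card τ := by
  let Ψ : (MvPolynomial σ k ⧸ RingHom.ker Φ) →ₐ[k] MvPolynomial τ k := Ideal.kerLiftAlg Φ
  have hΨ : Function.Injective Ψ := Ideal.kerLiftAlg_injective Φ
  have hdom : IsDomain (MvPolynomial σ k ⧸ RingHom.ker Φ) := hΨ.isDomain Ψ.toRingHom
  let x : τ → (MvPolynomial σ k ⧸ RingHom.ker Φ) := fun j => Ideal.Quotient.mk _ (h j)
  have hx : AlgebraicIndependent k x := by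
    have : (fun j => Φ (h j)) = Ψ ∘ x := by
      funext j
      simp [Ψ, x]
    rw [this] at hind
    exact hind.of_comp Ψ
  have htr : IsTranscendenceBasis k x := by
    apply hx.isTranscendenceBasis_of_trdeg_le_of_finite
    refine (trdeg_le_of_injective Ψ hΨ).trans ?_
    rw [MvPolynomial.trdeg_of_isDomain]
    simp
  exact ringKrullDim_eq_of_isTranscendenceBasis k htr

/-! ### The Jacobian criterion -/

section jacobian

variable {k : Type*} [Field k] {τ : Type*}

theorem totalDegree_pderiv_lt (P : MvPolynomial τ k) (i : τ) (n : ℕ) (hP : P.totalDegree ≤ n + 1) :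
    (pderiv i P).totalDegree ≤ n := by
  rw [totalDegree]
  refine Finset.sup_le fun m hm => ?_
  rw [mem_support_iff, coeff_pderiv] at hm
  have h1 : m + Finsupp.single i 1 ∈ P.support := by
    rw [mem_support_iff]
    exact left_ne_zero_of_mul hm
  have h2 := (le_totalDegree h1).trans hP
  have h3 : (m + Finsupp.single i 1).sum (fun _ e => e) = m.sum (fun _ e => e) + 1 := by
    rw [Finsupp.sum_add_index' (by simp) (by simp)]
    simp
  omega

theorem eq_C_of_pderiv_eq_zero [CharZero k] (P : MvPolynomial τ k)
    (h : ∀ i, pderiv i P = 0) : P = C (coeff 0 P) := by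
  classical
  ext m
  rw [coeff_C]
  split_ifs with hm
  · rw [hm]
  · obtain ⟨i, hi⟩ : ∃ i, m i ≠ 0 := by
      by_contra hcon
      push Not at hcon
      exact hm (Finsupp.ext fun i => (hcon i).symm)
    have h1 := coeff_pderiv P (m - Finsupp.single i 1) (i := i)
    have h2 : m - Finsupp.single i 1 + Finsupp.single i 1 = m :=
      tsub_add_cancel_of_le (by
        rw [Finsupp.single_le_iff]
        omega)
    rw [h i, h2, coeff_zero] at h1
    have h3 : (((m - Finsupp.single i 1 : τ →₀ ℕ) i : ℕ) : k) + 1 ≠ 0 := by
      exact Nat.cast_add_one_ne_zero _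
    exact (mul_eq_zero.1 h1.symm).resolve_right h3

theorem pderiv_aeval [Fintype τ] {σ : Type*} (h : τ → MvPolynomial σ k) (P : MvPolynomial τ k)
    (i : σ) :
    pderiv i (aeval h P) = ∑ j, aeval h (pderiv j P) * pderiv i (h j) := by
  classical
  induction P using MvPolynomial.induction_on with
  | C a => simp [MvPolynomial.algebraMap_eq]
  | add p q hp hq => simp only [map_add, hp, hq, add_mul, Finset.sum_add_distrib]
  | mul_X p n ih =>
    simp only [map_mul, aeval_X, pderiv_mul, ih, pderiv_X, map_add, Finset.sum_mul, add_mul,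
      Finset.sum_add_distrib]
    congr 1
    · refine Finset.sum_congr rfl fun j _ => ?_
      ring
    · rw [Finset.sum_eq_single n]
      · simp
      · intro j _ hj
        simp [hj.symm]
      · simp

/-- **Jacobian criterion.** Polynomials whose Jacobian matrix at some point is the identity
are algebraically independent (characteristic zero). -/
theorem algebraicIndependent_of_jacobian [CharZero k] [Fintype τ] [DecidableEq τ]
    (h : τ → MvPolynomial τ k) (pt : τ → k)
    (hJ : ∀ i j, eval pt (pderiv i (h j)) = if i = j then 1 else 0) :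
    AlgebraicIndependent k h := by
  rw [algebraicIndependent_iff]
  have key : ∀ n : ℕ, ∀ P : MvPolynomial τ k, P.totalDegree ≤ n → aeval h P = 0 → P = 0 := by
    have hconst : ∀ P : MvPolynomial τ k, P = C (coeff 0 P) → aeval h P = 0 → P = 0 := by
      intro P hP h0
      rw [hP] at h0 ⊢
      rw [aeval_C, MvPolynomial.algebraMap_eq, MvPolynomial.C_eq_zero] at h0
      rw [h0, map_zero]
    intro n
    induction n with
    | zero =>
      intro P hP h0
      exact hconst P ((totalDegree_eq_zero_iff_eq_C).1 (Nat.le_zero.1 hP)) h0
    | succ n ih =>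
      intro P hP h0
      apply hconst P _ h0
      apply eq_C_of_pderiv_eq_zero
      let M : Matrix τ τ (MvPolynomial τ k) := Matrix.of fun i j => pderiv i (h j)
      have hM : M.det ≠ 0 := by
        intro hdet
        have h1 : (M.map (eval pt)) = 1 := by
          ext i j
          simp only [M, Matrix.map_apply, Matrix.of_apply, hJ, Matrix.one_apply]
        have h2 : eval pt M.det = 1 := by
          rw [RingHom.map_det]
          change (M.map (eval pt)).det = 1
          rw [h1, Matrix.det_one]
        rw [hdet, map_zero] at h2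
        exact zero_ne_one h2
      have hv : M.mulVec (fun j => aeval h (pderiv j P)) = 0 := by
        funext i
        have h3 := pderiv_aeval h P i
        rw [h0, map_zero] at h3
        simp only [Matrix.mulVec, dotProduct, M, Matrix.of_apply, Pi.zero_apply]
        rw [h3]
        exact Finset.sum_congr rfl fun j _ => mul_comm _ _
      have hv0 := Matrix.eq_zero_of_mulVec_eq_zero hM hv
      intro j
      exact ih _ (totalDegree_pderiv_lt P j n hP) (congr_fun hv0 j)
  intro P hP
  exact key _ P le_rfl hP

/-- The differential of a polynomial map at a point, as a linear map. -/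
theorem exists_algebraicIndependent_of_injective_differential [CharZero k] {σ : Type*}
    [Finite σ] [Fintype τ] (Φ : MvPolynomial σ k →ₐ[k] MvPolynomial τ k) (pt : τ → k)
    (hinj : ∀ ξ : τ → k, (∀ s, ∑ i, ξ i * eval pt (pderiv i (Φ (X s))) = 0) → ξ = 0) :
    ∃ h : τ → MvPolynomial σ k, AlgebraicIndependent k (fun j => Φ (h j)) := by
  classical
  have : Fintype σ := Fintype.ofFinite σ
  let J : (τ → k) →ₗ[k] (σ → k) :=
    { toFun := fun ξ s => ∑ i, ξ i * eval pt (pderiv i (Φ (X s)))
      map_add' := by
        intro x y; funext s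
        simp [add_mul, Finset.sum_add_distrib]
      map_smul' := by
        intro c x; funext s
        simp [mul_assoc, Finset.mul_sum] }
  have hker : LinearMap.ker J = ⊥ := by
    rw [LinearMap.ker_eq_bot']
    intro ξ hξ
    exact hinj ξ fun s => congr_fun hξ s
  obtain ⟨Λ, hΛ⟩ := J.exists_leftInverse_of_injective hker
  refine ⟨fun j => ∑ s, C (Λ (Pi.single s 1) j) * X s, ?_⟩
  apply algebraicIndependent_of_jacobian _ pt
  intro i j
  have h1 : Λ (J (Pi.single i 1)) j = if i = j then 1 else 0 := by
    have := LinearMap.congr_fun hΛ (Pi.single i 1)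
    simp only [LinearMap.comp_apply, LinearMap.id_apply] at this
    rw [this, Pi.single_apply]
    simp [eq_comm]
  have h2 : J (Pi.single i 1) = ∑ s, (eval pt (pderiv i (Φ (X s)))) • Pi.single s (1 : k) := by
    funext s
    simp [J, Finset.sum_apply, Pi.single_apply]
  rw [← h1, h2, map_sum]
  simp only [map_sum, map_mul, Finset.sum_apply, LinearMap.map_smul, Pi.smul_apply, smul_eq_mul]
  refine Finset.sum_congr rfl fun s _ => ?_
  have h3 : Φ (C (Λ (Pi.single s 1) j)) = C (Λ (Pi.single s 1) j) := by
    rw [← MvPolynomial.algebraMap_eq, AlgHom.commutes, MvPolynomial.algebraMap_eq]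
  rw [h3, pderiv_C_mul, map_mul, eval_C, mul_comm]

end jacobian

end Pool.Agent.AlgDim
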